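import Pool.Agent.helper12.SP.Defs

set_option autoImplicit false

/-!
# Coding of automata by numbers
-/

namespace Pool.Agent.helper12.SP

namespace Cod

/-- a number with prescribed digits -/
theorem exists_digits (q : ℕ) (hq : 0 < q) (L : ℕ) : ∀ d : ℕ → ℕ, (∀ i, d i < q) →
    ∃ M : ℕ, ∀ i < L, M / q ^ i % q = d i := by
  induction L with
  | zero => intro d _; exact ⟨0, fun i hi => absurd hi (Nat.not_lt_zero i)⟩
  | succ L ih =>
    intro d hd
    obtain ⟨M, hM⟩ := ih (fun i => d (i + 1)) (fun i => hd _)
    refine ⟨d 0 + q * M, fun i hi => ?_⟩
    rcases i with _ | i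
    · rw [pow_zero, Nat.div_one, Nat.add_mul_mod_self_left, Nat.mod_eq_of_lt (hd 0)]
    · rw [pow_succ', ← Nat.div_div_eq_div_mul, Nat.add_mul_div_left _ _ hq,
        Nat.div_eq_of_lt (hd 0), zero_add]
      exact hM i (by omega)

theorem num_pos (w : List Bool) : 1 ≤ num w := by
  induction w with
  | nil => exact le_rfl
  | cons b w ih => simp only [num]; omega

theorem log_num (w : List Bool) : Nat.log 2 (num w) = w.length := by
  induction w with
  | nil => rfl
  | cons b w ih =>
    have h := num_pos w
    have h1 : num (b :: w) / 2 = num w := by
      simp only [num]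
      cases b <;> simp <;> omega
    have h2 : Nat.log 2 (num (b :: w)) = Nat.log 2 (num (b :: w) / 2) + 1 :=
      Nat.log_of_one_lt_of_le one_lt_two (by simp only [num]; omega)
    rw [h2, h1, ih, List.length_cons]

theorem num_bit (w : List Bool) : ∀ i (h : i < w.length), num w / 2 ^ i % 2 = (w[i]).toNat := by
  induction w with
  | nil => intro i h; exact absurd h (Nat.not_lt_zero i)
  | cons b w ih =>
    intro i h
    rcases i with _ | i
    · simp only [num, pow_zero, Nat.div_one, List.getElem_cons_zero]
      rw [Nat.add_mul_mod_self_left]
      cases b <;> rfl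
    · have h1 : num (b :: w) / 2 = num w := by
        simp only [num]
        cases b <;> simp <;> omega
      rw [pow_succ', ← Nat.div_div_eq_div_mul, h1, List.getElem_cons_succ]
      exact ih i (by simpa using h)

variable (A : Aut)

/-- state with the first answer -/
abbrev St : Type := Option Bool × A.Q

/-- initial states -/
def ini (s : A.Q) : St A := (A.out s, s)

/-- the rule -/
def rl (a b c : St A) : St A :=
  (b.1.orElse fun _ => A.out (A.rule a.2 b.2 c.2), A.rule a.2 b.2 c.2)

/-- the configurations with the first answers -/
def cf (w α : List Bool) : ℕ → ℤ → St A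
  | 0, x => ini A (A.cell w α x)
  | t + 1, x => rl A (cf w α t (x - 1)) (cf w α t x) (cf w α t (x + 1))

theorem cf_snd (w α : List Bool) (t : ℕ) (x : ℤ) : (cf A w α t x).2 = A.conf w α t x := by
  induction t generalizing x with
  | zero => rfl
  | succ t ih =>
    change A.rule (cf A w α t (x - 1)).2 (cf A w α t x).2 (cf A w α t (x + 1)).2 = _
    rw [ih, ih, ih]
    rfl

theorem cf_fst (w α : List Bool) (T : ℕ) (b : Bool) :
    (cf A w α T 0).1 = some b ↔ ∃ t ≤ T, A.Answers w α t b := by
  have key : ∀ T : ℕ, ((cf A w α T 0).1 = none ↔ ∀ t ≤ T, A.out (A.conf w α t 0) = none) ∧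
      ∀ b, ((cf A w α T 0).1 = some b ↔ ∃ t ≤ T, A.Answers w α t b) := by
    intro T
    induction T with
    | zero =>
      have h0 : (cf A w α 0 0).1 = A.out (A.conf w α 0 0) := rfl
      constructor
      · rw [h0]
        constructor
        · intro h t ht
          rw [Nat.le_zero.1 ht]
          exact h
        · intro h
          exact h 0 le_rfl
      · intro b
        rw [h0]
        constructor
        · intro h
          exact ⟨0, le_rfl, h, fun s hs => absurd hs (Nat.not_lt_zero s)⟩
        · rintro ⟨t, ht, h, _⟩
          rw [Nat.le_zero.1 ht] at h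
          exact h
    | succ T ih =>
      have h0 : (cf A w α (T + 1) 0).1 = ((cf A w α T 0).1.orElse
          fun _ => A.out (A.conf w α (T + 1) 0)) := by
        rw [← cf_snd]
        rfl
      rcases hc : (cf A w α T 0).1 with _ | b'
      · have h1 := ih.1.1 hc
        rw [hc] at h0
        change (cf A w α (T + 1) 0).1 = A.out (A.conf w α (T + 1) 0) at h0
        constructor
        · rw [h0]
          constructor
          · intro h t ht
            rcases Nat.lt_or_ge t (T + 1) with h2 | h2
            · exact h1 t (by omega)
            · rw [show t = T + 1 by omega]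
              exact h
          · intro h
            exact h _ le_rfl
        · intro b
          rw [h0]
          constructor
          · intro h
            exact ⟨T + 1, le_rfl, h, fun s hs => h1 s (by omega)⟩
          · rintro ⟨t, ht, h, h2⟩
            rcases Nat.lt_or_ge t (T + 1) with h3 | h3
            · rw [h1 t (by omega)] at h
              exact absurd h (by simp)
            · rw [show t = T + 1 by omega] at h
              exact h
      · rw [hc] at h0
        change (cf A w α (T + 1) 0).1 = some b' at h0
        obtain ⟨t, ht, h1, h2⟩ := (ih.2 b').1 hc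
        constructor
        · rw [h0]
          constructor
          · intro h
            exact absurd h (by simp)
          · intro h
            rw [h t (by omega)] at h1
            exact absurd h1 (by simp)
        · intro b
          rw [h0]
          constructor
          · intro h
            obtain rfl := Option.some.inj h
            exact ⟨t, by omega, h1, h2⟩
          · rintro ⟨t', ht', h3, h4⟩
            have : t = t' := by
              rcases lt_trichotomy t t' with h5 | h5 | h5
              · rw [h4 t h5] at h1
                exact absurd h1 (by simp)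
              · exact h5
              · rw [h2 t' h5] at h3
                exact absurd h3 (by simp)
            subst this
            rw [h1] at h3
            exact h3
  exact (key T).2 b

end Cod

open Classical Cod in
theorem code (A : Aut) : ∃ q M : ℕ, 5 ≤ q ∧ ∀ (w α : List Bool) (T : ℕ),
    nvd q M (nconf q M (num w) (num α) T 0) = 1 ↔ ∃ t ≤ T, A.Answers w α t false := by
  have := A.finQ
  have hfin : Finite (Cod.St A) := inferInstance
  obtain ⟨K, ⟨e⟩⟩ := Finite.exists_equiv_fin (Cod.St A)
  -- decoding
  let dec : ℕ → Cod.St A := fun a =>
    if a = 0 then Cod.ini A A.blank else if a = 1 then Cod.ini A (A.inp false)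
    else if a = 2 then Cod.ini A (A.inp true) else if a = 3 then Cod.ini A (A.adv false)
    else if a = 4 then Cod.ini A (A.adv true)
    else if h : a - 5 < K then e.symm ⟨a - 5, h⟩ else Cod.ini A A.blank
  let enc : Cod.St A → ℕ := fun s => 5 + (e s : ℕ)
  have hdec : ∀ s, dec (enc s) = s := by
    intro s
    have h1 : (enc s) - 5 = (e s : ℕ) := by simp only [enc]; omega
    have h2 : (enc s) - 5 < K := by rw [h1]; exact (e s).2
    simp only [dec]
    rw [if_neg (by simp only [enc]; omega), if_neg (by simp only [enc]; omega),
      if_neg (by simp only [enc]; omega), if_neg (by simp only [enc]; omega),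
      if_neg (by simp only [enc]; omega), dif_pos h2]
    have h3 : (⟨enc s - 5, h2⟩ : Fin K) = e s := Fin.ext h1
    rw [h3, Equiv.symm_apply_apply]
  have henc : ∀ s, enc s < 5 + K := by
    intro s
    have := (e s).2
    simp only [enc]
    omega
  set q := 5 + K with hq
  have hq5 : 5 ≤ q := by omega
  have hq0 : 0 < q := by omega
  -- the table
  let d : ℕ → ℕ := fun i =>
    if i < q * q * q then enc (Cod.rl A (dec (i / q / q)) (dec (i / q % q)) (dec (i % q)))
    else if (dec (i - q * q * q)).1 = some false then 1 else 0
  have hd : ∀ i, d i < q := by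
    intro i
    simp only [d]
    split_ifs
    · exact henc _
    · omega
    · omega
  obtain ⟨M, hM⟩ := exists_digits q hq0 (q * q * q + q) d hd
  have htr : ∀ a b c, a < q → b < q → c < q →
      ntr q M a b c = enc (Cod.rl A (dec a) (dec b) (dec c)) := by
    intro a b c ha hb hc
    have h1 : (a * q + b) * q + c < q * q * q := by
      have h2 : a * q + b < q * q := by
        calc a * q + b < a * q + q := by omega
          _ = (a + 1) * q := by ring
          _ ≤ q * q := Nat.mul_le_mul_right _ ha
      calc (a * q + b) * q + c < (a * q + b) * q + q := by omega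
        _ = (a * q + b + 1) * q := by ring
        _ ≤ q * q * q := Nat.mul_le_mul_right _ h2
    rw [ntr, hM _ (by omega)]
    simp only [d]
    rw [if_pos h1]
    have e1 : ((a * q + b) * q + c) % q = c := by
      rw [add_comm, Nat.add_mul_mod_self_right, Nat.mod_eq_of_lt hc]
    have e2 : ((a * q + b) * q + c) / q = a * q + b := by
      rw [add_comm, Nat.add_mul_div_right _ _ hq0, Nat.div_eq_of_lt hc, zero_add]
    have e3 : (a * q + b) % q = b := by
      rw [add_comm, Nat.add_mul_mod_self_right, Nat.mod_eq_of_lt hb]
    have e4 : (a * q + b) / q = a := by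
      rw [add_comm, Nat.add_mul_div_right _ _ hq0, Nat.div_eq_of_lt hb, zero_add]
    rw [e1, e2, e3, e4]
  have hvd : ∀ a < q, nvd q M a = 1 ↔ (dec a).1 = some false := by
    intro a ha
    rw [nvd, hM _ (by omega)]
    simp only [d]
    rw [if_neg (by omega), Nat.add_sub_cancel_left]
    split_ifs with h
    · simp [h]
    · simp [h]
  refine ⟨q, M, hq5, fun w α T => ?_⟩
  have hcell : ∀ x : ℤ, ncell (num w) (num α) x < q ∧
      dec (ncell (num w) (num α) x) = Cod.ini A (A.cell w α x) := by
    intro x
    rcases x with i | i
    · simp only [ncell, Aut.cell, log_num]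
      by_cases h : i < w.length
      · rw [if_pos h, num_bit w i h, List.getElem?_eq_getElem h]
        cases w[i] <;> simp [dec] <;> omega
      · rw [if_neg h, List.getElem?_eq_none (by omega)]
        simp [dec]
        omega
    · simp only [ncell, Aut.cell, log_num]
      by_cases h : i < α.length
      · rw [if_pos h, num_bit α i h, List.getElem?_eq_getElem h]
        cases α[i] <;> simp [dec] <;> omega
      · rw [if_neg h, List.getElem?_eq_none (by omega)]
        simp [dec]
        omega
  have hconf : ∀ (t : ℕ) (x : ℤ), nconf q M (num w) (num α) t x < q ∧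
      dec (nconf q M (num w) (num α) t x) = Cod.cf A w α t x := by
    intro t
    induction t with
    | zero => exact hcell
    | succ t ih =>
      intro x
      simp only [nconf]
      rw [htr _ _ _ (ih _).1 (ih _).1 (ih _).1, (ih _).2, (ih _).2, (ih _).2]
      exact ⟨henc _, hdec _⟩
  rw [hvd _ (hconf T 0).1, (hconf T 0).2]
  exact Cod.cf_fst A w α T false

end Pool.Agent.helper12.SP
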